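import Mathlib

set_option autoImplicit false

namespace Pool.Agent.Results.MP_cbccc2_co.LiftHeight

open Matrix

/-- A magnetic potential on `G`: a complex number of modulus one on every oriented edge `(x, y)`,
with `σ y x` the complex conjugate of `σ x y`.  (Values at non-adjacent pairs play no role.) -/
structure Potential {V : Type} (G : SimpleGraph V) where
  val : V → V → ℂ
  norm_val : ∀ x y, G.Adj x y → ‖val x y‖ = 1
  val_symm : ∀ x y, G.Adj x y → val y x = (starRingEnd ℂ) (val x y)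

open Classical in
/-- The magnetic Laplacian `(Δ^σ f)(x) = ∑_{y ∼ x} (f x - σ_{xy} f y)`. -/
noncomputable def magLap {V : Type} [Fintype V] (G : SimpleGraph V) (σ : Potential G)
    (f : V → ℂ) (x : V) : ℂ :=
  ∑ y ∈ Finset.univ.filter (fun y => G.Adj x y), (f x - σ.val x y * f y)

/-- The set of (real) eigenvalues of the magnetic Laplacian. -/
def eigenvalueSet {V : Type} [Fintype V] (G : SimpleGraph V) (σ : Potential G) : Set ℝ :=
  {t | ∃ f : V → ℂ, f ≠ 0 ∧ ∀ x, magLap G σ f x = (t : ℂ) * f x}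

/-- The smallest eigenvalue of the magnetic Laplacian. -/
noncomputable def lambda1 {V : Type} [Fintype V] (G : SimpleGraph V) (σ : Potential G) : ℝ :=
  sInf (eigenvalueSet G σ)

/-- The magneto-spectral height: the supremum of `λ₁^σ` over all magnetic potentials. -/
noncomputable def height {V : Type} [Fintype V] (G : SimpleGraph V) : ℝ :=
  ⨆ σ : Potential G, lambda1 G σ

/-- `p` exhibits `H` as a lift (covering) of `G`: it is surjective on vertices, maps edges to
edges, and maps the neighbours of each vertex bijectively onto the neighbours of its image. -/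
def IsLift {V W : Type} (H : SimpleGraph W) (G : SimpleGraph V) (p : W → V) : Prop :=
  Function.Surjective p ∧ (∀ x y, H.Adj x y → G.Adj (p x) (p y)) ∧
    ∀ x, Set.BijOn p (H.neighborSet x) (G.neighborSet (p x))

/-! ### Spectral facts -/

theorem exists_min_eigen {V : Type} [Fintype V] [DecidableEq V] [Nonempty V]
    {M : Matrix V V ℂ} (hM : M.IsHermitian) :
    ∃ m : ℝ, (∃ f : V → ℂ, f ≠ 0 ∧ M *ᵥ f = (m : ℂ) • f) ∧
      ∀ f : V → ℂ, m * ∑ x, ‖f x‖ ^ 2 ≤ (∑ x, (starRingEnd ℂ) (f x) * (M *ᵥ f) x).re := by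
  obtain ⟨i₀, hi₀⟩ := Finite.exists_min hM.eigenvalues
  refine ⟨hM.eigenvalues i₀, ⟨⇑(hM.eigenvectorBasis i₀), ?_, ?_⟩, ?_⟩
  · intro h
    have h1 := hM.eigenvectorBasis.orthonormal.1 i₀
    have h2 : hM.eigenvectorBasis i₀ = 0 := by
      ext x
      exact congrFun h x
    rw [h2] at h1
    simp at h1
  · rw [hM.mulVec_eigenvectorBasis]
    ext x
    simp
  · intro f
    set T := Matrix.toEuclideanLin M with hT
    have hsym : T.IsSymmetric := isSymmetric_toEuclideanLin_iff.mpr hM
    set F : EuclideanSpace ℂ V := WithLp.toLp 2 f with hF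
    have h1 : (∑ x, (starRingEnd ℂ) (f x) * (M *ᵥ f) x) = inner ℂ F (T F) := by
      rw [EuclideanSpace.inner_eq_star_dotProduct]
      simp [dotProduct, hT, hF, toEuclideanLin, mul_comm]
    have h2 : ∑ x, ‖f x‖ ^ 2 = ‖F‖ ^ 2 := by
      rw [EuclideanSpace.norm_sq_eq]
    have h3 : inner ℂ F (T F) = ∑ i, (hM.eigenvalues i : ℂ) *
        ((‖inner ℂ (hM.eigenvectorBasis i) F‖ ^ 2 : ℝ) : ℂ) := by
      rw [← hM.eigenvectorBasis.sum_inner_mul_inner F (T F)]
      refine Finset.sum_congr rfl fun i _ => ?_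
      have h4 : T (hM.eigenvectorBasis i) = (hM.eigenvalues i : ℂ) • hM.eigenvectorBasis i := by
        ext x
        have := congrFun (hM.mulVec_eigenvectorBasis i) x
        simpa [hT, toEuclideanLin] using this
      rw [← hsym, h4, inner_smul_left, ← inner_conj_symm F]
      rw [mul_left_comm, Complex.conj_ofReal, RCLike.conj_mul]
      push_cast
      rfl
    have h5 : ‖F‖ ^ 2 = ∑ i, ‖inner ℂ (hM.eigenvectorBasis i) F‖ ^ 2 :=
      (hM.eigenvectorBasis.sum_sq_norm_inner_right F).symm
    rw [h1, h2, h3, h5, Finset.mul_sum, Complex.re_sum]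
    refine Finset.sum_le_sum fun i _ => ?_
    rw [← Complex.ofReal_mul, Complex.ofReal_re]
    exact mul_le_mul_of_nonneg_right (hi₀ i) (by positivity)

open Classical in
/-- The matrix of the magnetic Laplacian. -/
noncomputable def lapMatrix {V : Type} [Fintype V] (G : SimpleGraph V) (σ : Potential G) :
    Matrix V V ℂ :=
  Matrix.of fun x y => (if x = y then ((Finset.univ.filter (fun y => G.Adj x y)).card : ℂ) else 0) -
    (if G.Adj x y then σ.val x y else 0)

theorem lapMatrix_mulVec {V : Type} [Fintype V] (G : SimpleGraph V) (σ : Potential G)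
    (f : V → ℂ) (x : V) : (lapMatrix G σ *ᵥ f) x = magLap G σ f x := by
  classical
  simp only [lapMatrix, magLap, mulVec, dotProduct, Matrix.of_apply, sub_mul,
    Finset.sum_sub_distrib, ite_mul, zero_mul, Finset.sum_ite_eq, Finset.mem_univ, if_true,
    Finset.sum_const, nsmul_eq_mul, Finset.sum_filter]

theorem lapMatrix_isHermitian {V : Type} [Fintype V] (G : SimpleGraph V) (σ : Potential G) :
    (lapMatrix G σ).IsHermitian := by
  classical
  ext x y
  simp only [lapMatrix, conjTranspose_apply, Matrix.of_apply, star_sub]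
  congr 1
  · by_cases h : x = y
    · subst h; simp
    · simp [h, Ne.symm h]
  · by_cases h : G.Adj x y
    · simp [h, h.symm, σ.val_symm x y h]
    · have h' : ¬ G.Adj y x := fun h' => h h'.symm
      simp [h, h']

theorem lambda1_spec {V : Type} [Fintype V] [Nonempty V] (G : SimpleGraph V) (σ : Potential G) :
    lambda1 G σ ∈ eigenvalueSet G σ ∧ ∀ f : V → ℂ, lambda1 G σ * ∑ x, ‖f x‖ ^ 2 ≤
      (∑ x, (starRingEnd ℂ) (f x) * magLap G σ f x).re := by
  classical
  obtain ⟨m, ⟨f₀, hf₀, hm⟩, hray⟩ := exists_min_eigen (lapMatrix_isHermitian G σ)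
  have hmem : m ∈ eigenvalueSet G σ := by
    refine ⟨f₀, hf₀, fun x => ?_⟩
    rw [← lapMatrix_mulVec, hm]
    rfl
  have hmin : ∀ t ∈ eigenvalueSet G σ, m ≤ t := by
    rintro t ⟨f, hf, ht⟩
    have h1 := hray f
    have h2 : (∑ x, (starRingEnd ℂ) (f x) * (lapMatrix G σ *ᵥ f) x).re = t * ∑ x, ‖f x‖ ^ 2 := by
      have : ∀ x, (starRingEnd ℂ) (f x) * (lapMatrix G σ *ᵥ f) x =
          ((t * ‖f x‖ ^ 2 : ℝ) : ℂ) := by
        intro x
        rw [lapMatrix_mulVec, ht, mul_left_comm, RCLike.conj_mul]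
        push_cast
        rfl
      rw [Finset.sum_congr rfl fun x _ => this x, ← Complex.ofReal_sum, Complex.ofReal_re,
        Finset.mul_sum]
    rw [h2] at h1
    have h3 : 0 < ∑ x, ‖f x‖ ^ 2 := by
      obtain ⟨x, hx⟩ := Function.ne_iff.mp hf
      refine lt_of_lt_of_le ?_ (Finset.single_le_sum (f := fun x => ‖f x‖ ^ 2)
        (fun i _ => by positivity) (Finset.mem_univ x))
      have : 0 < ‖f x‖ := norm_pos_iff.mpr hx
      positivity
    exact le_of_mul_le_mul_right h1 h3
  have heq : lambda1 G σ = m :=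
    le_antisymm (csInf_le ⟨m, hmin⟩ hmem) (le_csInf ⟨m, hmem⟩ hmin)
  rw [heq]
  refine ⟨hmem, fun f => ?_⟩
  have := hray f
  simpa only [lapMatrix_mulVec] using this

open Classical in
theorem lambda1_le_degree {V : Type} [Fintype V] [Nonempty V] (G : SimpleGraph V)
    (σ : Potential G) (x : V) :
    lambda1 G σ ≤ (Finset.univ.filter (fun y => G.Adj x y)).card := by
  have h := (lambda1_spec G σ).2 (Pi.single x 1)
  have h1 : ∑ y, ‖(Pi.single x 1 : V → ℂ) y‖ ^ 2 = 1 := by
    rw [Finset.sum_eq_single x]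
    · simp
    · intro y _ hy
      simp [Pi.single_eq_of_ne hy]
    · simp
  have h2 : ∑ y, (starRingEnd ℂ) ((Pi.single x 1 : V → ℂ) y) * magLap G σ (Pi.single x 1) y =
      (Finset.univ.filter (fun y => G.Adj x y)).card := by
    rw [Finset.sum_eq_single x]
    · simp only [Pi.single_eq_same, map_one, one_mul, magLap]
      rw [Finset.sum_congr rfl (g := fun _ => (1 : ℂ))]
      · simp
      · intro y hy
        have : G.Adj x y := (Finset.mem_filter.mp hy).2
        simp [Pi.single_eq_of_ne this.ne']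
    · intro y _ hy
      simp [Pi.single_eq_of_ne hy]
    · simp
  rw [h1, h2] at h
  simpa using h

/-! ### Cayley graphs of elementary abelian `2`-groups with nine generators -/

section Cay

variable {n : ℕ}

/-- The Cayley graph of `F_2^n` with connection set `{s 0, …, s 8}`. -/
def cay (s : Fin 9 → (Fin n → ZMod 2)) : SimpleGraph (Fin n → ZMod 2) :=
  SimpleGraph.fromRel fun x y => ∃ i, y = x + s i

theorem add_add_self (x y : Fin n → ZMod 2) : x + y + y = x := by
  ext k
  simp only [Pi.add_apply, add_assoc, CharTwo.add_self_eq_zero, add_zero]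

variable {s : Fin 9 → (Fin n → ZMod 2)}

theorem cay_adj (hs0 : ∀ i, s i ≠ 0) (x y : Fin n → ZMod 2) :
    (cay s).Adj x y ↔ ∃ i, y = x + s i := by
  constructor
  · rintro ⟨-, h | ⟨i, h⟩⟩
    · exact h
    · exact ⟨i, by rw [h, add_add_self]⟩
  · rintro ⟨i, h⟩
    refine ⟨?_, Or.inl ⟨i, h⟩⟩
    intro h'
    rw [h'] at h
    exact hs0 i (by simpa using h)

theorem cay_adj_add (hs0 : ∀ i, s i ≠ 0) (x : Fin n → ZMod 2) (i : Fin 9) :
    (cay s).Adj x (x + s i) := (cay_adj hs0 _ _).mpr ⟨i, rfl⟩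

open Classical in
theorem cay_sum (hs0 : ∀ i, s i ≠ 0) (hs : Function.Injective s) (x : Fin n → ZMod 2)
    (g : (Fin n → ZMod 2) → ℂ) :
    ∑ y ∈ Finset.univ.filter (fun y => (cay s).Adj x y), g y = ∑ i, g (x + s i) := by
  have h : Finset.univ.filter (fun y => (cay s).Adj x y) =
      Finset.univ.image (fun i => x + s i) := by
    ext y
    simp only [Finset.mem_filter, Finset.mem_univ, true_and, cay_adj hs0, Finset.mem_image]
    constructor
    · rintro ⟨i, h⟩; exact ⟨i, h.symm⟩
    · rintro ⟨i, h⟩; exact ⟨i, h.symm⟩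
  rw [h, Finset.sum_image]
  intro i _ j _ hij
  exact hs (add_left_cancel hij)

/-- The weighted adjacency operator. -/
noncomputable def adjOp (s : Fin 9 → (Fin n → ZMod 2)) (σ : Potential (cay s))
    (f : (Fin n → ZMod 2) → ℂ) (x : Fin n → ZMod 2) : ℂ :=
  ∑ i, σ.val x (x + s i) * f (x + s i)

theorem magLap_cay (hs0 : ∀ i, s i ≠ 0) (hs : Function.Injective s) (σ : Potential (cay s))
    (f : (Fin n → ZMod 2) → ℂ) (x : Fin n → ZMod 2) :
    magLap (cay s) σ f x = 9 * f x - adjOp s σ f x := by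
  unfold magLap adjOp
  rw [cay_sum hs0 hs x (fun y => f x - σ.val x y * f y), Finset.sum_sub_distrib]
  simp

theorem val_back (hs0 : ∀ i, s i ≠ 0) (σ : Potential (cay s)) (x : Fin n → ZMod 2) (i : Fin 9) :
    σ.val (x + s i) x = (starRingEnd ℂ) (σ.val x (x + s i)) :=
  σ.val_symm _ _ (cay_adj_add hs0 x i)

theorem val_back' (hs0 : ∀ i, s i ≠ 0) (σ : Potential (cay s)) (x : Fin n → ZMod 2) (i : Fin 9) :
    σ.val (x + s i) (x + s i + s i) = (starRingEnd ℂ) (σ.val x (x + s i)) := by
  rw [add_add_self, val_back hs0]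

theorem norm_val_add (hs0 : ∀ i, s i ≠ 0) (σ : Potential (cay s)) (x : Fin n → ZMod 2)
    (i : Fin 9) : ‖σ.val x (x + s i)‖ = 1 := σ.norm_val _ _ (cay_adj_add hs0 x i)

theorem adjOp_selfadjoint (hs0 : ∀ i, s i ≠ 0) (σ : Potential (cay s))
    (f g : (Fin n → ZMod 2) → ℂ) :
    ∑ x, (starRingEnd ℂ) (f x) * adjOp s σ g x =
      ∑ x, (starRingEnd ℂ) (adjOp s σ f x) * g x := by
  unfold adjOp
  simp only [Finset.mul_sum, map_sum, Finset.sum_mul, map_mul]
  rw [Finset.sum_comm]
  conv_rhs => rw [Finset.sum_comm]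
  refine Finset.sum_congr rfl fun i _ => ?_
  rw [← Equiv.sum_comp (Equiv.addRight (s i))]
  refine Finset.sum_congr rfl fun x _ => ?_
  simp only [Equiv.coe_addRight]
  rw [val_back' hs0, add_add_self]
  ring

theorem adjOp_add (σ : Potential (cay s)) (f g : (Fin n → ZMod 2) → ℂ) (x : Fin n → ZMod 2) :
    adjOp s σ (f + g) x = adjOp s σ f x + adjOp s σ g x := by
  unfold adjOp
  rw [← Finset.sum_add_distrib]
  refine Finset.sum_congr rfl fun i _ => ?_
  simp only [Pi.add_apply]
  ring

theorem adjOp_smul (σ : Potential (cay s)) (c : ℂ) (f : (Fin n → ZMod 2) → ℂ)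
    (x : Fin n → ZMod 2) : adjOp s σ (c • f) x = c * adjOp s σ f x := by
  unfold adjOp
  rw [Finset.mul_sum]
  refine Finset.sum_congr rfl fun i _ => ?_
  simp only [Pi.smul_apply, smul_eq_mul]
  ring

/-- The Rayleigh bound for the adjacency operator. -/
theorem rayleigh_adj (hs0 : ∀ i, s i ≠ 0) (hs : Function.Injective s) (σ : Potential (cay s))
    (f : (Fin n → ZMod 2) → ℂ) :
    (∑ x, (starRingEnd ℂ) (f x) * adjOp s σ f x).re ≤
      (9 - lambda1 (cay s) σ) * ∑ x, ‖f x‖ ^ 2 := by
  have h := (lambda1_spec (cay s) σ).2 f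
  have h1 : (∑ x, (starRingEnd ℂ) (f x) * magLap (cay s) σ f x).re =
      9 * ∑ x, ‖f x‖ ^ 2 - (∑ x, (starRingEnd ℂ) (f x) * adjOp s σ f x).re := by
    have : ∀ x, (starRingEnd ℂ) (f x) * magLap (cay s) σ f x =
        ((9 * ‖f x‖ ^ 2 : ℝ) : ℂ) - (starRingEnd ℂ) (f x) * adjOp s σ f x := by
      intro x
      rw [magLap_cay hs0 hs, mul_sub, mul_left_comm, RCLike.conj_mul]
      push_cast
      rfl
    rw [Finset.sum_congr rfl fun x _ => this x, Finset.sum_sub_distrib, Complex.sub_re,
      ← Complex.ofReal_sum, Complex.ofReal_re, Finset.mul_sum]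
  rw [h1] at h
  linarith

/-- Test functions `t g + A g` with `g` supported on one side of the bipartition. -/
theorem norm_adjOp_le (hs0 : ∀ i, s i ≠ 0) (hs : Function.Injective s) (σ : Potential (cay s))
    (par : (Fin n → ZMod 2) → ZMod 2) (hpar : ∀ x i, par (x + s i) = par x + 1) (c : ZMod 2)
    (g : (Fin n → ZMod 2) → ℂ) (hg : ∀ x, par x ≠ c → g x = 0) (t : ℝ) :
    2 * t * ∑ x, ‖adjOp s σ g x‖ ^ 2 ≤
      (9 - lambda1 (cay s) σ) * (t ^ 2 * ∑ x, ‖g x‖ ^ 2 + ∑ x, ‖adjOp s σ g x‖ ^ 2) := by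
  have hc : ∀ z : ZMod 2, z = c → z + 1 ≠ c :=
    (by decide : ∀ c z : ZMod 2, z = c → z + 1 ≠ c) c
  have hc' : ∀ z : ZMod 2, z ≠ c → z + 1 = c :=
    (by decide : ∀ c z : ZMod 2, z ≠ c → z + 1 = c) c
  set a := adjOp s σ g with ha
  have ha0 : ∀ x, par x = c → a x = 0 := by
    intro x hx
    rw [ha]
    unfold adjOp
    refine Finset.sum_eq_zero fun i _ => ?_
    rw [hg (x + s i) (by rw [hpar]; exact hc _ hx), mul_zero]
  have haa0 : ∀ x, par x ≠ c → adjOp s σ a x = 0 := by
    intro x hx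
    unfold adjOp
    refine Finset.sum_eq_zero fun i _ => ?_
    rw [ha0 (x + s i) (by rw [hpar]; exact hc' _ hx), mul_zero]
  have hray := rayleigh_adj hs0 hs σ ((t : ℂ) • g + a)
  have h1 : ∑ x, ‖((t : ℂ) • g + a) x‖ ^ 2 = t ^ 2 * ∑ x, ‖g x‖ ^ 2 + ∑ x, ‖a x‖ ^ 2 := by
    rw [Finset.mul_sum, ← Finset.sum_add_distrib]
    refine Finset.sum_congr rfl fun x _ => ?_
    by_cases hx : par x = c
    · rw [Pi.add_apply, Pi.smul_apply, ha0 x hx]
      simp [mul_pow]
    · rw [Pi.add_apply, Pi.smul_apply, hg x hx]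
      simp
  have h2 : (∑ x, (starRingEnd ℂ) (((t : ℂ) • g + a) x) * adjOp s σ ((t : ℂ) • g + a) x) =
      ((2 * t * ∑ x, ‖a x‖ ^ 2 : ℝ) : ℂ) := by
    have h3 : ∑ x, (starRingEnd ℂ) (g x) * adjOp s σ a x = ((∑ x, ‖a x‖ ^ 2 : ℝ) : ℂ) := by
      rw [adjOp_selfadjoint hs0, Complex.ofReal_sum]
      refine Finset.sum_congr rfl fun x _ => ?_
      rw [← ha, RCLike.conj_mul]
      push_cast
      rfl
    have h4 : ∀ x, (starRingEnd ℂ) (((t : ℂ) • g + a) x) * adjOp s σ ((t : ℂ) • g + a) x =
        (t : ℂ) * ((starRingEnd ℂ) (g x) * adjOp s σ a x) +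
          (t : ℂ) * ((‖a x‖ ^ 2 : ℝ) : ℂ) := by
      intro x
      rw [adjOp_add, adjOp_smul, ← ha]
      by_cases hx : par x = c
      · rw [Pi.add_apply, Pi.smul_apply, ha0 x hx]
        simp only [smul_eq_mul, add_zero, map_mul, Complex.conj_ofReal, mul_zero, zero_add,
          norm_zero]
        push_cast
        ring
      · rw [Pi.add_apply, Pi.smul_apply, hg x hx, haa0 x hx]
        simp only [smul_eq_mul, mul_zero, zero_add, map_zero, add_zero]
        rw [mul_left_comm, RCLike.conj_mul]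
        push_cast
        rfl
    rw [Finset.sum_congr rfl fun x _ => h4 x, Finset.sum_add_distrib, ← Finset.mul_sum, h3,
      ← Finset.mul_sum, ← Complex.ofReal_sum]
    push_cast
    ring
  rw [h1, h2, Complex.ofReal_re] at hray
  exact hray

/-- Two-step weights from `x` in directions `i`, `j`. -/
noncomputable def two (s : Fin 9 → (Fin n → ZMod 2)) (σ : Potential (cay s)) (i j : Fin 9)
    (x : Fin n → ZMod 2) : ℂ :=
  σ.val x (x + s i) * σ.val (x + s i) (x + s i + s j)

theorem two_self (hs0 : ∀ i, s i ≠ 0) (σ : Potential (cay s)) (i : Fin 9)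
    (x : Fin n → ZMod 2) : two s σ i i x = 1 := by
  unfold two
  rw [val_back' hs0, RCLike.mul_conj, norm_val_add hs0]
  simp

theorem adjOp_adjOp (σ : Potential (cay s)) (f : (Fin n → ZMod 2) → ℂ) (x : Fin n → ZMod 2) :
    adjOp s σ (adjOp s σ f) x = ∑ i, ∑ j, two s σ i j x * f (x + s i + s j) := by
  unfold adjOp two
  refine Finset.sum_congr rfl fun i _ => ?_
  rw [Finset.mul_sum]
  refine Finset.sum_congr rfl fun j _ => ?_
  ring

/-- The rectagraph property. -/
def Recta (s : Fin 9 → (Fin n → ZMod 2)) : Prop :=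
  ∀ i j k l : Fin 9, i ≠ j → s k + s l = s i + s j → (k = i ∧ l = j) ∨ (k = j ∧ l = i)

theorem sq_at_self (hs0 : ∀ i, s i ≠ 0) (hs : Function.Injective s) (σ : Potential (cay s))
    (x : Fin n → ZMod 2) :
    adjOp s σ (adjOp s σ (Pi.single x 1)) x = 9 := by
  rw [adjOp_adjOp]
  have : ∀ i j : Fin 9, two s σ i j x * (Pi.single x 1 : (Fin n → ZMod 2) → ℂ) (x + s i + s j) =
      if i = j then 1 else 0 := by
    intro i j
    by_cases h : i = j
    · subst h
      rw [two_self hs0, add_add_self]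
      simp
    · have : x + s i + s j ≠ x := by
        intro h'
        apply h
        apply hs
        have h2 : s i + s j = 0 := by
          rw [add_assoc] at h'
          simpa using h'
        rw [← add_add_self (s i) (s j), h2, zero_add]
      rw [Pi.single_eq_of_ne this]
      simp [h]
  simp only [this]
  simp

theorem sq_at_other (hrec : Recta s)
    (σ : Potential (cay s)) (x : Fin n → ZMod 2) {i j : Fin 9} (hij : i ≠ j) :
    adjOp s σ (adjOp s σ (Pi.single (x + s i + s j) 1)) x = two s σ i j x + two s σ j i x := by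
  rw [adjOp_adjOp]
  have h1 : ∀ k l : Fin 9,
      two s σ k l x * (Pi.single (x + s i + s j) 1 : (Fin n → ZMod 2) → ℂ) (x + s k + s l) =
      (if k = i ∧ l = j then two s σ i j x else 0) +
        (if k = j ∧ l = i then two s σ j i x else 0) := by
    intro k l
    by_cases h : s k + s l = s i + s j
    · rcases hrec i j k l hij h with ⟨h1, h2⟩ | ⟨h1, h2⟩
      · subst h1 h2
        simp [hij]
      · subst h1 h2
        have : x + s k + s l = x + s l + s k := by rw [add_right_comm]
        rw [this]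
        simp [hij.symm]
    · have h2 : x + s k + s l ≠ x + s i + s j := by
        intro h'
        rw [add_assoc, add_assoc] at h'
        exact h (add_left_cancel h')
      have h3 : ¬ (k = i ∧ l = j) := by
        rintro ⟨rfl, rfl⟩; exact h rfl
      have h4 : ¬ (k = j ∧ l = i) := by
        rintro ⟨rfl, rfl⟩; exact h (add_comm _ _)
      rw [Pi.single_eq_of_ne h2]
      simp [h3, h4]
  simp only [h1, Finset.sum_add_distrib]
  congr 1
  · rw [Finset.sum_eq_single i, Finset.sum_eq_single j]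
    · simp
    · intro l _ hl; simp [hl]
    · simp
    · intro k _ hk; simp [hk]
    · simp
  · rw [Finset.sum_eq_single j, Finset.sum_eq_single i]
    · simp
    · intro l _ hl; simp [hl]
    · simp
    · intro k _ hk; simp [hk]
    · simp

theorem sum_norm_sq_adjOp (hs0 : ∀ i, s i ≠ 0) (σ : Potential (cay s))
    (g : (Fin n → ZMod 2) → ℂ) :
    ∑ x, ‖adjOp s σ g x‖ ^ 2 =
      (∑ x, (starRingEnd ℂ) (g x) * adjOp s σ (adjOp s σ g) x).re := by
  rw [adjOp_selfadjoint hs0, Complex.re_sum]
  refine Finset.sum_congr rfl fun x _ => ?_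
  rw [RCLike.conj_mul]
  norm_cast

theorem sum_single_mul (x : Fin n → ZMod 2) (h : (Fin n → ZMod 2) → ℂ) :
    ∑ y, (starRingEnd ℂ) ((Pi.single x 1 : (Fin n → ZMod 2) → ℂ) y) * h y = h x := by
  rw [Finset.sum_eq_single x]
  · simp
  · intro y _ hy
    simp [Pi.single_eq_of_ne hy]
  · simp

theorem sum_mul_single (x : Fin n → ZMod 2) (h : (Fin n → ZMod 2) → ℂ) :
    ∑ y, (starRingEnd ℂ) (h y) * ((Pi.single x 1 : (Fin n → ZMod 2) → ℂ) y) =
      (starRingEnd ℂ) (h x) := by
  rw [Finset.sum_eq_single x]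
  · simp
  · intro y _ hy
    simp [Pi.single_eq_of_ne hy]
  · simp

theorem sum_norm_sq_single (x : Fin n → ZMod 2) :
    ∑ y, ‖(Pi.single x 1 : (Fin n → ZMod 2) → ℂ) y‖ ^ 2 = 1 := by
  rw [Finset.sum_eq_single x]
  · simp
  · intro y _ hy
    simp [Pi.single_eq_of_ne hy]
  · simp

theorem three_le (hs0 : ∀ i, s i ≠ 0) (hs : Function.Injective s) (σ : Potential (cay s))
    (par : (Fin n → ZMod 2) → ZMod 2) (hpar : ∀ x i, par (x + s i) = par x + 1) :
    3 ≤ 9 - lambda1 (cay s) σ := by
  have h := norm_adjOp_le hs0 hs σ par hpar (par 0) (Pi.single 0 1) (by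
    intro x hx
    have : x ≠ 0 := by rintro rfl; exact hx rfl
    exact Pi.single_eq_of_ne this _) 3
  rw [sum_norm_sq_adjOp hs0, sum_single_mul, sq_at_self hs0 hs, sum_norm_sq_single] at h
  norm_num at h
  linarith

theorem pair_bound (hs0 : ∀ i, s i ≠ 0) (hs : Function.Injective s) (hrec : Recta s)
    (σ : Potential (cay s))
    (par : (Fin n → ZMod 2) → ZMod 2) (hpar : ∀ x i, par (x + s i) = par x + 1)
    (x : Fin n → ZMod 2) {i j : Fin 9} (hij : i ≠ j) :
    ‖two s σ i j x + two s σ j i x‖ ≤ (9 - lambda1 (cay s) σ) ^ 2 - 9 := by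
  set μ := 9 - lambda1 (cay s) σ with hμ
  have hμ3 : 3 ≤ μ := three_le hs0 hs σ par hpar
  set β := two s σ i j x + two s σ j i x with hβ
  set z := x + s i + s j with hz
  have hzx : z ≠ x := by
    intro h'
    apply hij
    apply hs
    have h2 : s i + s j = 0 := by
      rw [hz, add_assoc] at h'
      simpa using h'
    rw [← add_add_self (s i) (s j), h2, zero_add]
  have hadd : ∀ (f g : (Fin n → ZMod 2) → ℂ), adjOp s σ (f + g) = adjOp s σ f + adjOp s σ g := by
    intro f g; ext y; exact adjOp_add σ f g y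
  have hsmul : ∀ (c : ℂ) (f : (Fin n → ZMod 2) → ℂ), adjOp s σ (c • f) = c • adjOp s σ f := by
    intro c f; ext y; exact adjOp_smul σ c f y
  have hzx1 : adjOp s σ (adjOp s σ (Pi.single z 1)) x = β := sq_at_other hrec σ x hij
  have hxz1 : adjOp s σ (adjOp s σ (Pi.single x 1)) z = (starRingEnd ℂ) β := by
    rw [← sum_single_mul z (adjOp s σ (adjOp s σ (Pi.single x 1))), adjOp_selfadjoint hs0,
      adjOp_selfadjoint hs0, sum_mul_single, hzx1]
  have key : ∀ ζ : ℂ, ‖ζ‖ = 1 → (ζ * β).re ≤ μ ^ 2 - 9 := by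
    intro ζ hζ
    set g : (Fin n → ZMod 2) → ℂ := Pi.single x 1 + ζ • Pi.single z 1 with hg
    have hgs : ∀ y, par y ≠ par x → g y = 0 := by
      intro y hy
      have h1 : y ≠ x := by rintro rfl; exact hy rfl
      have h2 : y ≠ z := by
        rintro rfl
        apply hy
        rw [hz, hpar, hpar, add_assoc, (by decide : (1 : ZMod 2) + 1 = 0), add_zero]
      simp [hg, Pi.single_eq_of_ne h1, Pi.single_eq_of_ne h2]
    have h := norm_adjOp_le hs0 hs σ par hpar (par x) g hgs μ
    have hn : ∑ y, ‖g y‖ ^ 2 = 2 := by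
      rw [Finset.sum_eq_add_of_mem x z (Finset.mem_univ _) (Finset.mem_univ _) hzx.symm]
      · simp [hg, Pi.single_eq_of_ne hzx, Pi.single_eq_of_ne hzx.symm, hζ]
        norm_num
      · intro y _ hy
        simp [hg, Pi.single_eq_of_ne hy.1, Pi.single_eq_of_ne hy.2]
    have hS : ∑ y, ‖adjOp s σ g y‖ ^ 2 = 18 + 2 * (ζ * β).re := by
      rw [sum_norm_sq_adjOp hs0]
      rw [Finset.sum_eq_add_of_mem x z (Finset.mem_univ _) (Finset.mem_univ _) hzx.symm]
      · rw [hg, hadd, hsmul, hadd, hsmul]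
        simp only [Pi.add_apply, Pi.smul_apply, Pi.single_eq_same, Pi.single_eq_of_ne hzx,
          Pi.single_eq_of_ne hzx.symm, smul_eq_mul, mul_zero, mul_one, add_zero, zero_add, map_one,
          one_mul, hzx1, hxz1, sq_at_self hs0 hs]
        have h1 : (starRingEnd ℂ) ζ * ((starRingEnd ℂ) β + ζ * 9) =
            (starRingEnd ℂ) (ζ * β) + 9 := by
          have : (starRingEnd ℂ) ζ * ζ = 1 := by
            rw [RCLike.conj_mul, hζ]; simp
          rw [map_mul, mul_add, ← mul_assoc, this, one_mul]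
        rw [h1, Complex.add_re, Complex.add_re, Complex.add_re, Complex.conj_re]
        norm_num
        ring
      · intro y _ hy
        simp [hg, Pi.single_eq_of_ne hy.1, Pi.single_eq_of_ne hy.2]
    rw [hn, hS] at h
    nlinarith
  by_cases hβ0 : β = 0
  · rw [hβ0, norm_zero]
    nlinarith
  · have hpos : 0 < ‖β‖ := norm_pos_iff.mpr hβ0
    have h := key ((starRingEnd ℂ) β / ‖β‖) (by
      rw [norm_div, RCLike.norm_conj, Complex.norm_real, norm_norm, div_self hpos.ne'])
    have h2 : (starRingEnd ℂ) β / ‖β‖ * β = (‖β‖ : ℂ) := by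
      have h3 : (‖β‖ : ℂ) ≠ 0 := by exact_mod_cast hpos.ne'
      rw [div_mul_eq_mul_div, Complex.conj_mul', sq, mul_div_assoc, div_self h3, mul_one]
    rw [h2, Complex.ofReal_re] at h
    exact h

/-- Holonomy of `σ` along the path from `x` that follows the directions in the list. -/
noncomputable def hol (s : Fin 9 → (Fin n → ZMod 2)) (σ : Potential (cay s)) :
    List (Fin 9) → (Fin n → ZMod 2) → ℂ
  | [], _ => 1
  | i :: l, x => σ.val x (x + s i) * hol s σ l (x + s i)

theorem hol_append (σ : Potential (cay s)) (l m : List (Fin 9)) (x : Fin n → ZMod 2) :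
    hol s σ (l ++ m) x = hol s σ l x * hol s σ m (x + (l.map s).sum) := by
  induction l generalizing x with
  | nil => simp [hol]
  | cons i l ih =>
    simp only [List.cons_append, hol, ih, List.map_cons, List.sum_cons, mul_assoc, add_assoc]

theorem norm_hol (hs0 : ∀ i, s i ≠ 0) (σ : Potential (cay s)) (l : List (Fin 9))
    (x : Fin n → ZMod 2) : ‖hol s σ l x‖ = 1 := by
  induction l generalizing x with
  | nil => simp [hol]
  | cons i l ih => rw [hol, norm_mul, ih, norm_val_add hs0, mul_one]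

/-- Sign picked up when moving the letter `i` through the word `l`. -/
noncomputable def sg (i : Fin 9) (l : List (Fin 9)) : ℂ :=
  (l.map fun k => if k = i then (1 : ℂ) else -1).prod

noncomputable def sgw (m l : List (Fin 9)) : ℂ := (m.map fun i => sg i l).prod

theorem norm_sg (i : Fin 9) (l : List (Fin 9)) : ‖sg i l‖ = 1 := by
  induction l with
  | nil => simp [sg]
  | cons k l ih =>
    have : sg i (k :: l) = (if k = i then (1 : ℂ) else -1) * sg i l := by simp [sg]
    rw [this, norm_mul, ih, mul_one]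
    split_ifs <;> simp

theorem swap_bound (hs0 : ∀ i, s i ≠ 0) (σ : Potential (cay s)) {ε : ℝ}
    (hε : ∀ x i j, i ≠ j → ‖two s σ i j x + two s σ j i x‖ ≤ ε) {i j : Fin 9} (hij : i ≠ j)
    (l : List (Fin 9)) (x : Fin n → ZMod 2) :
    ‖hol s σ (i :: j :: l) x + hol s σ (j :: i :: l) x‖ ≤ ε := by
  have h1 : hol s σ (i :: j :: l) x = two s σ i j x * hol s σ l (x + s i + s j) := by
    simp only [hol, two, mul_assoc]
  have h2 : hol s σ (j :: i :: l) x = two s σ j i x * hol s σ l (x + s i + s j) := by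
    simp only [hol, two, mul_assoc]
    rw [add_right_comm x (s j) (s i)]
  rw [h1, h2, ← add_mul, norm_mul, norm_hol hs0, mul_one]
  exact hε x i j hij

theorem move_bound (hs0 : ∀ i, s i ≠ 0) (σ : Potential (cay s)) {ε : ℝ} (hε0 : 0 ≤ ε)
    (hε : ∀ x i j, i ≠ j → ‖two s σ i j x + two s σ j i x‖ ≤ ε) (i : Fin 9)
    (l r : List (Fin 9)) (x : Fin n → ZMod 2) :
    ‖hol s σ (l ++ i :: r) x - sg i l * hol s σ (i :: (l ++ r)) x‖ ≤ l.length * ε := by
  induction l generalizing x with
  | nil => simp [sg]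
  | cons k l ih =>
    have h1 : ‖hol s σ (k :: (l ++ i :: r)) x - sg i l * hol s σ (k :: i :: (l ++ r)) x‖ ≤
        l.length * ε := by
      have : hol s σ (k :: (l ++ i :: r)) x - sg i l * hol s σ (k :: i :: (l ++ r)) x =
          σ.val x (x + s k) * (hol s σ (l ++ i :: r) (x + s k) -
            sg i l * hol s σ (i :: (l ++ r)) (x + s k)) := by
        simp only [hol]
        ring
      rw [this, norm_mul, norm_val_add hs0, one_mul]
      exact ih _
    have h2 : sg i (k :: l) = (if k = i then (1 : ℂ) else -1) * sg i l := by simp [sg]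
    simp only [List.cons_append, List.length_cons, Nat.cast_add, Nat.cast_one]
    rw [h2]
    by_cases hk : k = i
    · subst hk
      rw [if_pos rfl, one_mul]
      linarith
    · rw [if_neg hk]
      have h3 : hol s σ (k :: (l ++ i :: r)) x -
          -1 * sg i l * hol s σ (i :: k :: (l ++ r)) x =
          (hol s σ (k :: (l ++ i :: r)) x - sg i l * hol s σ (k :: i :: (l ++ r)) x) +
            sg i l * (hol s σ (k :: i :: (l ++ r)) x + hol s σ (i :: k :: (l ++ r)) x) := by
        ring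
      rw [h3]
      calc _ ≤ _ := norm_add_le _ _
        _ ≤ l.length * ε + 1 * ε := by
          refine add_le_add h1 ?_
          rw [norm_mul, norm_sg]
          exact mul_le_mul_of_nonneg_left (swap_bound hs0 σ hε hk _ _) zero_le_one
        _ = _ := by ring

theorem word_bound (hs0 : ∀ i, s i ≠ 0) (σ : Potential (cay s)) {ε : ℝ} (hε0 : 0 ≤ ε)
    (hε : ∀ x i j, i ≠ j → ‖two s σ i j x + two s σ j i x‖ ≤ ε)
    (l m : List (Fin 9)) (x : Fin n → ZMod 2) :
    ‖hol s σ (l ++ m) x - sgw m l * hol s σ (m ++ l) x‖ ≤ l.length * m.length * ε := by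
  induction m generalizing x with
  | nil => simp [sgw]
  | cons i m ih =>
    have h1 := move_bound hs0 σ hε0 hε i l m x
    have h2 : ‖hol s σ (i :: (l ++ m)) x - sgw m l * hol s σ (i :: (m ++ l)) x‖ ≤
        l.length * m.length * ε := by
      have : hol s σ (i :: (l ++ m)) x - sgw m l * hol s σ (i :: (m ++ l)) x =
          σ.val x (x + s i) * (hol s σ (l ++ m) (x + s i) -
            sgw m l * hol s σ (m ++ l) (x + s i)) := by
        simp only [hol]
        ring
      rw [this, norm_mul, norm_val_add hs0, one_mul]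
      exact ih _
    have h3 : sgw (i :: m) l = sg i l * sgw m l := by simp [sgw]
    have h4 : hol s σ (l ++ i :: m) x - sgw (i :: m) l * hol s σ (i :: m ++ l) x =
        (hol s σ (l ++ i :: m) x - sg i l * hol s σ (i :: (l ++ m)) x) +
          sg i l * (hol s σ (i :: (l ++ m)) x - sgw m l * hol s σ (i :: (m ++ l)) x) := by
      rw [h3, List.cons_append]
      ring
    rw [h4]
    calc _ ≤ _ := norm_add_le _ _
      _ ≤ l.length * ε + 1 * (l.length * m.length * ε) := by
        refine add_le_add h1 ?_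
        rw [norm_mul, norm_sg]
        exact mul_le_mul_of_nonneg_left h2 zero_le_one
      _ = _ := by
        simp only [List.length_cons, Nat.cast_add, Nat.cast_one]
        ring

theorem eps_lower (hs0 : ∀ i, s i ≠ 0) (σ : Potential (cay s)) {ε : ℝ} (hε0 : 0 ≤ ε)
    (hε : ∀ x i j, i ≠ j → ‖two s σ i j x + two s σ j i x‖ ≤ ε)
    (l m : List (Fin 9)) (hl : (l.map s).sum = 0) (hm : (m.map s).sum = 0)
    (hsg : sgw m l = -1) : 2 ≤ l.length * m.length * ε := by
  have h := word_bound hs0 σ hε0 hε l m 0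
  have h1 : hol s σ (m ++ l) 0 = hol s σ (l ++ m) 0 := by
    rw [hol_append, hol_append, hl, hm, add_zero]
    ring
  rw [h1, hsg] at h
  have h2 : hol s σ (l ++ m) 0 - -1 * hol s σ (l ++ m) 0 = 2 * hol s σ (l ++ m) 0 := by ring
  rw [h2, norm_mul, norm_hol hs0, mul_one] at h
  simpa using h

end Cay

/-! ### The base graph: a quotient of the `9`-cube with `128` vertices -/

def gen7 : Fin 9 → (Fin 7 → ZMod 2) :=
  ![![1, 0, 0, 0, 0, 0, 0], ![0, 1, 0, 0, 0, 0, 0], ![0, 0, 1, 0, 0, 0, 0],
    ![0, 0, 0, 1, 0, 0, 0], ![0, 0, 0, 0, 1, 0, 0], ![0, 0, 0, 0, 0, 1, 0],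
    ![0, 0, 0, 0, 0, 0, 1], ![1, 1, 1, 1, 1, 0, 0], ![0, 0, 1, 1, 1, 1, 1]]

theorem gen7_ne : ∀ i, gen7 i ≠ 0 := by decide +kernel

theorem gen7_inj : Function.Injective gen7 := by decide +kernel

theorem gen7_recta : Recta gen7 := by unfold Recta; decide +kernel

theorem gen7_par (x : Fin 7 → ZMod 2) (i : Fin 9) :
    ∑ k, (x + gen7 i) k = ∑ k, x k + 1 := by
  simp only [Pi.add_apply, Finset.sum_add_distrib]
  congr 1
  revert i
  decide +kernel

/-- The base graph. -/
abbrev baseGraph : SimpleGraph (Fin 7 → ZMod 2) := cay gen7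

theorem base_lambda1 (σ : Potential baseGraph) :
    lambda1 baseGraph σ ≤ 9 - Real.sqrt (9 + 1 / 18) := by
  have h3 := three_le gen7_ne gen7_inj σ (fun x => ∑ k, x k) gen7_par
  have hb := fun x (i j : Fin 9) (hij : i ≠ j) =>
    pair_bound gen7_ne gen7_inj gen7_recta σ (fun x => ∑ k, x k) gen7_par x hij
  have h2 := eps_lower gen7_ne σ (ε := (9 - lambda1 (cay gen7) σ) ^ 2 - 9) (by nlinarith) hb
    [0, 1, 2, 3, 4, 7] [2, 3, 4, 5, 6, 8] (by decide +kernel) (by decide +kernel)
    (by simp [sgw, sg])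
  have h4 : (9 : ℝ) + 1 / 18 ≤ (9 - lambda1 baseGraph σ) ^ 2 := by
    simp only [List.length_cons, List.length_nil] at h2
    norm_num at h2
    linarith
  have h5 : Real.sqrt (9 + 1 / 18) ≤ 9 - lambda1 baseGraph σ :=
    Real.sqrt_le_iff.mpr ⟨by linarith, h4⟩
  linarith

/-! ### The lift: the `9`-cube -/

def gen9 : Fin 9 → (Fin 9 → ZMod 2) := fun i => Pi.single i 1

theorem gen9_ne : ∀ i, gen9 i ≠ 0 := by
  intro i h
  have := congrFun h i
  simp [gen9] at this

theorem gen9_inj : Function.Injective gen9 := by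
  intro i j h
  by_contra hij
  have := congrFun h i
  simp [gen9, Pi.single_eq_of_ne hij] at this

theorem gen9_par (x : Fin 9 → ZMod 2) (i : Fin 9) :
    ∑ k, (x + gen9 i) k = ∑ k, x k + 1 := by
  simp [gen9, Finset.sum_add_distrib]

/-- The `9`-cube. -/
abbrev cube : SimpleGraph (Fin 9 → ZMod 2) := cay gen9

/-- `(-1)` to the number of `j < i` with `x j = 1`. -/
noncomputable def sgn (i : Fin 9) (x : Fin 9 → ZMod 2) : ℂ :=
  ∏ j, if j < i ∧ x j = 1 then (-1 : ℂ) else 1

theorem sgn_sq (i : Fin 9) (x : Fin 9 → ZMod 2) : sgn i x * sgn i x = 1 := by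
  unfold sgn
  rw [← Finset.prod_mul_distrib]
  refine Finset.prod_eq_one fun j _ => ?_
  split_ifs <;> norm_num

theorem conj_sgn (i : Fin 9) (x : Fin 9 → ZMod 2) : (starRingEnd ℂ) (sgn i x) = sgn i x := by
  unfold sgn
  rw [map_prod]
  refine Finset.prod_congr rfl fun j _ => ?_
  split_ifs <;> simp

theorem norm_sgn (i : Fin 9) (x : Fin 9 → ZMod 2) : ‖sgn i x‖ = 1 := by
  unfold sgn
  rw [norm_prod]
  refine Finset.prod_eq_one fun j _ => ?_
  split_ifs <;> simp

theorem zmod2_add_one (z : ZMod 2) : (z + 1 = 1) ↔ ¬ (z = 1) := by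
  revert z
  decide

theorem sgn_add (i k : Fin 9) (x : Fin 9 → ZMod 2) :
    sgn i (x + gen9 k) = sgn i x * (if k < i then -1 else 1) := by
  have h : (if k < i then (-1 : ℂ) else 1) = ∏ j, if j = k then (if j < i then (-1 : ℂ) else 1) else 1 := by
    rw [Finset.prod_ite_eq' Finset.univ k]
    simp
  rw [h]
  unfold sgn
  rw [← Finset.prod_mul_distrib]
  refine Finset.prod_congr rfl fun j _ => ?_
  by_cases hjk : j = k
  · subst hjk
    have : (x + gen9 j) j = x j + 1 := by simp [gen9]
    rw [this]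
    simp only [zmod2_add_one]
    by_cases hji : j < i <;> by_cases hx : x j = 1 <;> simp [hji, hx]
  · have : (x + gen9 k) j = x j := by simp [gen9, Pi.single_eq_of_ne hjk]
    rw [this]
    simp [hjk]

open Classical in
noncomputable def cubeVal (x y : Fin 9 → ZMod 2) : ℂ :=
  ∏ i, if y = x + gen9 i then sgn i x else 1

theorem cubeVal_add (x : Fin 9 → ZMod 2) (i : Fin 9) : cubeVal x (x + gen9 i) = sgn i x := by
  classical
  unfold cubeVal
  rw [Finset.prod_eq_single i]
  · simp
  · intro j _ hj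
    rw [if_neg]
    intro h
    exact hj (gen9_inj (add_left_cancel h)).symm
  · simp

noncomputable def cubePotential : Potential cube where
  val := cubeVal
  norm_val := by
    intro x y h
    obtain ⟨i, rfl⟩ := (cay_adj gen9_ne x y).mp h
    rw [cubeVal_add, norm_sgn]
  val_symm := by
    intro x y h
    obtain ⟨i, rfl⟩ := (cay_adj gen9_ne x y).mp h
    have h1 : cubeVal (x + gen9 i) x = cubeVal (x + gen9 i) (x + gen9 i + gen9 i) := by
      rw [add_add_self]
    rw [h1, cubeVal_add, cubeVal_add, sgn_add, conj_sgn]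
    simp

theorem cube_two {i j : Fin 9} (hij : i ≠ j) (x : Fin 9 → ZMod 2) :
    two gen9 cubePotential i j x + two gen9 cubePotential j i x = 0 := by
  unfold two
  show cubeVal _ _ * cubeVal _ _ + cubeVal _ _ * cubeVal _ _ = 0
  rw [cubeVal_add, cubeVal_add, cubeVal_add, cubeVal_add, sgn_add, sgn_add]
  rcases lt_or_gt_of_ne hij with h | h
  · rw [if_pos h, if_neg (not_lt.mpr h.le)]; ring
  · rw [if_neg (not_lt.mpr h.le), if_pos h]; ring

theorem cube_sq (f : (Fin 9 → ZMod 2) → ℂ) (x : Fin 9 → ZMod 2) :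
    adjOp gen9 cubePotential (adjOp gen9 cubePotential f) x = 9 * f x := by
  rw [adjOp_adjOp]
  set T : Fin 9 → Fin 9 → ℂ := fun i j => two gen9 cubePotential i j x * f (x + gen9 i + gen9 j)
    with hT
  have h1 : ∀ i j, T i j + T j i = if i = j then 2 * f x else 0 := by
    intro i j
    by_cases hij : i = j
    · subst hij
      simp only [hT, if_true, two_self gen9_ne, add_add_self]
      ring
    · rw [if_neg hij]
      simp only [hT]
      rw [add_right_comm x (gen9 j) (gen9 i), ← add_mul, cube_two hij, zero_mul]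
  have h2 : ∑ i, ∑ j, T i j + ∑ i, ∑ j, T i j = 18 * f x := by
    nth_rewrite 2 [Finset.sum_comm]
    rw [← Finset.sum_add_distrib]
    simp_rw [← Finset.sum_add_distrib, h1]
    simp
    ring
  have h3 : ∑ i, ∑ j, T i j = 9 * f x := by linear_combination h2 / 2
  exact h3

theorem cube_lambda1 : 6 ≤ lambda1 cube cubePotential := by
  obtain ⟨f, hf, hft⟩ := (lambda1_spec cube cubePotential).1
  set t := lambda1 cube cubePotential with ht
  obtain ⟨x, hx⟩ := Function.ne_iff.mp hf
  have h1 : adjOp gen9 cubePotential f = ((9 - t : ℝ) : ℂ) • f := by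
    ext y
    have := hft y
    rw [magLap_cay gen9_ne gen9_inj] at this
    simp only [Pi.smul_apply, smul_eq_mul]
    push_cast
    linear_combination -this
  have h2 := cube_sq f x
  rw [h1, adjOp_smul, h1] at h2
  simp only [Pi.smul_apply, smul_eq_mul, ← mul_assoc] at h2
  have h3 : ((9 - t : ℝ) : ℂ) * ((9 - t : ℝ) : ℂ) = 9 := mul_right_cancel₀ hx h2
  have h4 : (9 - t) * (9 - t) = 9 := by exact_mod_cast h3
  nlinarith

theorem cube_height : 6 ≤ height cube := by
  refine le_trans cube_lambda1 (le_ciSup (f := fun σ : Potential cube => lambda1 cube σ) ?_ _)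
  refine ⟨6, ?_⟩
  rintro _ ⟨σ, rfl⟩
  have := three_le gen9_ne gen9_inj σ (fun x => ∑ k, x k) gen9_par
  have h : lambda1 cube σ = lambda1 (cay gen9) σ := rfl
  simp only [h]
  linarith

/-! ### The covering map -/

def proj (w : Fin 9 → ZMod 2) : Fin 7 → ZMod 2 := ∑ i, w i • gen7 i

theorem proj_add (w : Fin 9 → ZMod 2) (i : Fin 9) : proj (w + gen9 i) = proj w + gen7 i := by
  unfold proj
  simp only [Pi.add_apply, add_smul, Finset.sum_add_distrib]
  congr 1
  rw [Finset.sum_eq_single i]
  · simp [gen9]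
  · intro j _ hj
    simp [gen9, Pi.single_eq_of_ne hj]
  · simp

theorem proj_surj : Function.Surjective proj := by
  intro v
  refine ⟨![v 0, v 1, v 2, v 3, v 4, v 5, v 6, 0, 0], ?_⟩
  ext k
  simp only [proj, Finset.sum_apply, Pi.smul_apply, smul_eq_mul, Fin.sum_univ_succ]
  fin_cases k <;> simp [gen7]

theorem isLift_proj : IsLift cube baseGraph proj := by
  refine ⟨proj_surj, ?_, ?_⟩
  · intro x y h
    obtain ⟨i, rfl⟩ := (cay_adj gen9_ne x y).mp h
    rw [proj_add]
    exact cay_adj_add gen7_ne _ _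
  · intro x
    refine ⟨?_, ?_, ?_⟩
    · intro y h
      obtain ⟨i, rfl⟩ := (cay_adj gen9_ne x y).mp h
      rw [proj_add]
      exact cay_adj_add gen7_ne _ _
    · intro y hy z hz h
      obtain ⟨i, rfl⟩ := (cay_adj gen9_ne x y).mp hy
      obtain ⟨j, rfl⟩ := (cay_adj gen9_ne x z).mp hz
      rw [proj_add, proj_add] at h
      rw [gen7_inj (add_left_cancel h)]
    · intro y hy
      obtain ⟨i, rfl⟩ := (cay_adj gen7_ne (proj x) y).mp hy
      exact ⟨x + gen9 i, cay_adj_add gen9_ne x i, proj_add x i⟩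

theorem cube_connected : cube.Connected := by
  have h1 : ∀ S : Finset (Fin 9), cube.Reachable 0 (∑ i ∈ S, gen9 i) := by
    intro S
    induction S using Finset.induction_on with
    | empty => simp
    | insert i S hi ih =>
      rw [Finset.sum_insert hi, add_comm]
      exact ih.trans (cay_adj_add gen9_ne _ i).reachable
  have h2 : ∀ x : Fin 9 → ZMod 2, cube.Reachable 0 x := by
    intro x
    have h3 : ∑ i ∈ Finset.univ.filter (fun i => x i = 1), gen9 i = x := by
      ext k
      rw [Finset.sum_apply]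
      simp only [gen9, Finset.sum_filter, Pi.single_apply]
      have h4 : ∀ z : ZMod 2, (if z = 1 then (1 : ZMod 2) else 0) = z := by decide
      have h5 : ∀ i : Fin 9, (if x i = 1 then (if k = i then (1 : ZMod 2) else 0) else 0) =
          if k = i then (if x i = 1 then 1 else 0) else 0 := by
        intro i; split_ifs <;> rfl
      simp_rw [h5]
      rw [Finset.sum_ite_eq Finset.univ k]
      simp [h4]
    rw [← h3]
    exact h1 _
  exact (SimpleGraph.connected_iff_exists_forall_reachable _).mpr ⟨0, h2⟩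

theorem base_connected : baseGraph.Connected := by
  refine (SimpleGraph.connected_iff_exists_forall_reachable _).mpr ⟨proj 0, fun v => ?_⟩
  obtain ⟨w, rfl⟩ := proj_surj v
  let φ : cube →g baseGraph := ⟨proj, fun {x y} h => isLift_proj.2.1 x y h⟩
  exact (cube_connected.preconnected 0 w).map φ

/-- There are finite (connected) graphs `G`, `H` and a finite lift `p : H → G` with
`ν(H) > ν(G)`. -/
theorem result : ∃ (V W : Type) (_ : Fintype V) (_ : Fintype W) (G : SimpleGraph V)
    (H : SimpleGraph W) (p : W → V), G.Connected ∧ H.Connected ∧ IsLift H G p ∧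
      height G < height H := by
  refine ⟨_, _, inferInstance, inferInstance, baseGraph, cube, proj, base_connected,
    cube_connected, isLift_proj, ?_⟩
  have : Nonempty (Potential baseGraph) := ⟨⟨fun _ _ => 1, by simp, by simp⟩⟩
  have h1 : height baseGraph ≤ 9 - Real.sqrt (9 + 1 / 18) := ciSup_le base_lambda1
  have h2 : (3 : ℝ) < Real.sqrt (9 + 1 / 18) := by
    rw [Real.lt_sqrt (by norm_num)]
    norm_num
  have h3 := cube_height
  linarith

end Pool.Agent.Results.MP_cbccc2_co.LiftHeight
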